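import Pool.Agent.H71.FX.Targets

/-!
# Blocks: the number of elements
-/

set_option autoImplicit false

namespace Pool.Agent.H10.FX

open Pool.Agent.H71.FX Pool.Agent.H71.PF Pool.Agent.H8.PL

section
variable {β : Type} {f g : β → β} {ℓ : ℕ}

theorem bc_per (h : ∀ x, Bk ℓ f g x) (a : β) (i : ℕ) (hi : i ≤ ℓ) :
    g^[ℓ - i] (g^[i] a) = a := by
  rw [← Function.iterate_add_apply, Nat.sub_add_cancel hi]
  exact (h a).1

theorem bc_inj (h : ∀ x, Bk ℓ f g x) (a b : β) (ha : f a = a) (hb : f b = b) (j k : ℕ)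
    (hjk : j ≤ k) (hk : k < ℓ) (e : g^[j] a = g^[k] b) : a = b ∧ j = k := by
  have h1 : g^[ℓ - j] (g^[j] a) = g^[ℓ - j] (g^[k] b) := by rw [e]
  rw [bc_per h a j (by omega), ← Function.iterate_add_apply,
    show ℓ - j + k = (k - j) + ℓ by omega, Function.iterate_add_apply, (h b).1] at h1
  rcases Nat.eq_or_lt_of_le hjk with h2 | h2
  · subst h2
    simp only [Nat.sub_self, Function.iterate_zero, id_eq] at h1
    exact ⟨h1, rfl⟩
  · exfalso
    refine ((h b).2.2 hb).1 (k - j) (by omega) (by omega) ?_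
    rw [← h1, ha]

/-- the map onto the structure -/
def bcMap (f g : β → β) (ℓ : ℕ) (p : Fin ℓ × {x // f x = x}) : β := g^[p.1.1] p.2.1

theorem bc_bij (h : ∀ x, Bk ℓ f g x) : Function.Bijective (bcMap f g ℓ) := by
  constructor
  · rintro ⟨⟨j, hj⟩, ⟨a, ha⟩⟩ ⟨⟨k, hk⟩, ⟨b, hb⟩⟩ e
    simp only [bcMap] at e
    rcases le_total j k with h1 | h1
    · obtain ⟨h2, h3⟩ := bc_inj h a b ha hb j k h1 hk e
      subst h2; subst h3; rfl
    · obtain ⟨h2, h3⟩ := bc_inj h b a hb ha k j h1 hj e.symm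
      subst h2; subst h3; rfl
  · intro x
    obtain ⟨i, hi, hx⟩ := (h x).2.1
    rcases Nat.eq_zero_or_pos i with h0 | h0
    · subst h0
      exact ⟨(⟨0, hi⟩, ⟨x, hx⟩), rfl⟩
    · exact ⟨(⟨ℓ - i, by omega⟩, ⟨g^[i] x, hx⟩), bc_per h x i hi.le⟩

end

theorem pf_BC : T_BC := by
  intro β f g ℓ _ _ h
  refine ⟨?_, fun ⟨x⟩ => ?_⟩
  · rw [← Nat.card_congr (Equiv.ofBijective _ (bc_bij h)), Nat.card_prod, Nat.card_fin]
  · obtain ⟨i, _, hx⟩ := (h x).2.1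
    exact ⟨⟨g^[i] x, hx⟩⟩

end Pool.Agent.H10.FX
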