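import Pool.Agent.H71.FX.Targets

/-!
# Two unary function symbols
-/

set_option autoImplicit false

namespace Pool.Agent.H10.FX

open Pool.Agent.H71.FX Pool.Agent.H71.PF Pool.Agent.H8.PL

/-- the term of a word -/
def s1Tm (i j : ℕ) (z : ℕ) : List Bool → Tm
  | [] => .var z
  | true :: w => .app j (k := 1) fun _ => s1Tm i j z w
  | false :: w => .app i (k := 1) fun _ => s1Tm i j z w

/-- the formula -/
def s1QF (i j : ℕ) : B2 → QF
  | .eq w w' a b => .eq (s1Tm i j (bif a then 1 else 0) w) (s1Tm i j (bif b then 1 else 0) w')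
  | .neg φ => .neg (s1QF i j φ)
  | .and φ ψ => .and (s1QF i j φ) (s1QF i j ψ)

theorem s1Tm_vars (i j z : ℕ) (hz : z < 2) : ∀ w, (s1Tm i j z w).Vars 2
  | [] => hz
  | true :: w => fun _ => s1Tm_vars i j z hz w
  | false :: w => fun _ => s1Tm_vars i j z hz w

theorem s1Tm_voc (i j z : ℕ) : ∀ w, (s1Tm i j z w).Voc fun a k => (a = i ∨ a = j) ∧ k = 1
  | [] => trivial
  | true :: w => ⟨⟨Or.inr rfl, rfl⟩, fun _ => s1Tm_voc i j z w⟩
  | false :: w => ⟨⟨Or.inl rfl, rfl⟩, fun _ => s1Tm_voc i j z w⟩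

theorem s1_lt (a : Bool) : (bif a then 1 else 0 : ℕ) < 2 := by cases a <;> simp

theorem s1QF_vars (i j : ℕ) : ∀ φ, (s1QF i j φ).Vars 2
  | .eq w w' a b => ⟨s1Tm_vars i j _ (s1_lt a) w, s1Tm_vars i j _ (s1_lt b) w'⟩
  | .neg φ => s1QF_vars i j φ
  | .and φ ψ => ⟨s1QF_vars i j φ, s1QF_vars i j ψ⟩

theorem s1QF_voc (i j : ℕ) : ∀ φ, (s1QF i j φ).Voc (fun a k => (a = i ∨ a = j) ∧ k = 1) 0
  | .eq w w' _ _ => ⟨s1Tm_voc i j _ w, s1Tm_voc i j _ w'⟩
  | .neg φ => s1QF_voc i j φ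
  | .and φ ψ => ⟨s1QF_voc i j φ, s1QF_voc i j ψ⟩

section
variable {α : Type} (F : ℕ → List α → α) (R : ℕ → List α → Prop)

theorem s1Tm_val (i j z : ℕ) (v : ℕ → α) : ∀ w, (s1Tm i j z w).val F v =
    wv (fun a => F i [a]) (fun a => F j [a]) w (v z)
  | [] => rfl
  | true :: w => by
    simp only [s1Tm, Tm.val, wv, s1Tm_val i j z v w, List.ofFn_succ, List.ofFn_zero]
  | false :: w => by
    simp only [s1Tm, Tm.val, wv, s1Tm_val i j z v w, List.ofFn_succ, List.ofFn_zero]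

theorem s1_sel (v : ℕ → α) (a : Bool) : v (bif a then 1 else 0) = bif a then v 1 else v 0 := by
  cases a <;> rfl

theorem s1QF_sat (i j : ℕ) (v : ℕ → α) : ∀ φ, (s1QF i j φ).Sat F R v ↔
    φ.Sat (fun a => F i [a]) (fun a => F j [a]) (v 0) (v 1)
  | .eq w w' a b => by
    simp only [s1QF, QF.Sat, B2.Sat, s1Tm_val, s1_sel]
  | .neg φ => by
    simp only [s1QF, QF.Sat, B2.Sat, s1QF_sat i j v φ]
  | .and φ ψ => by
    simp only [s1QF, QF.Sat, B2.Sat, s1QF_sat i j v φ, s1QF_sat i j v ψ]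

theorem s1_upd (v : ℕ → α) (a b : α) :
    Function.update (Function.update v 0 a) 1 b 0 = a ∧
      Function.update (Function.update v 0 a) 1 b 1 = b := by
  constructor
  · rw [Function.update_of_ne (by decide), Function.update_self]
  · rw [Function.update_self]

theorem s1_pre (i j : ℕ) (v : ℕ → α) (φ : B2) (p : Bool) :
    Pre F R (s1QF i j φ) [p, true] 0 v ↔ bif p
      then (∀ x y, φ.Sat (fun a => F i [a]) (fun a => F j [a]) x y)
      else (∃ x, ∀ y, φ.Sat (fun a => F i [a]) (fun a => F j [a]) x y) := by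
  cases p
  · simp only [Pre, s1QF_sat, (s1_upd v _ _).1, (s1_upd v _ _).2, Nat.zero_add, cond_false]
  · simp only [Pre, s1QF_sat, (s1_upd v _ _).1, (s1_upd v _ _).2, Nat.zero_add, cond_true]

end

/-- the functions of the structure -/
def s1F {α : Type} [Inhabited α] (i : ℕ) (f g : α → α) (k : ℕ) (l : List α) : α :=
  if k = i then f l.head! else g l.head!

theorem s1F_eq {α : Type} [Inhabited α] (i j : ℕ) (hij : i ≠ j) (f g : α → α) :
    (fun a => s1F i f g i [a]) = f ∧ (fun a => s1F i f g j [a]) = g := by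
  constructor
  · funext a
    simp [s1F]
  · funext a
    simp [s1F, hij.symm]

theorem s1_spec (i j : ℕ) (hij : i ≠ j) (φ : B2) (p : Bool) (n : ℕ) :
    n ∈ Spec [p, true] (s1QF i j φ) ↔ 0 < n ∧ ∃ f g : Fin n → Fin n, (bif p
      then (∀ x y, φ.Sat f g x y) else (∃ x, ∀ y, φ.Sat f g x y)) := by
  constructor
  · rintro ⟨hn, F, R, h⟩
    have : Nonempty (Fin n) := ⟨⟨0, hn⟩⟩
    exact ⟨hn, _, _, (s1_pre F R i j (fun _ => ⟨0, hn⟩) φ p).1 (h _)⟩
  · rintro ⟨hn, f, g, h⟩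
    have : Inhabited (Fin n) := ⟨⟨0, hn⟩⟩
    refine ⟨hn, s1F i f g, fun _ _ => True, fun v => ?_⟩
    rw [s1_pre, (s1F_eq i j hij f g).1, (s1F_eq i j hij f g).2]
    exact h

theorem pf_S1 : T_S1 := by
  intro φ i j hij
  refine ⟨s1QF i j φ, s1QF_vars i j φ, s1QF_voc i j φ, fun n => ⟨?_, ?_⟩⟩
  · exact s1_spec i j hij φ false n
  · exact s1_spec i j hij φ true n

end Pool.Agent.H10.FX
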